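import Pool.Agent.TH693.CT.Stm

set_option autoImplicit false

/-!
# A linear pattern of the partition function modulo 2 vanishes at least `√x / 8` times (CT-D0)
-/

namespace Pool.Agent.TH227.CT

open Finset Pool.Agent.TH693.CT

lemma mem_KK1 (n : ℕ) (k : ℤ) : k ∈ KK 1 n ↔ pentagonal k ≤ n := by
  unfold KK
  simp only [mem_filter, mem_Icc, one_mul]
  constructor
  · exact fun h => h.2
  · intro h
    have h1 := Pool.Agent.H397R2.PP.natAbs_le_pentagonal k
    have h2 : |k| ≤ (n : ℤ) := h1.trans (by exact_mod_cast h)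
    have h3 := abs_le.mp h2
    exact ⟨⟨h3.1, h3.2⟩, h⟩

lemma KK1_eq (n : ℕ) (j : ℤ) (hj : 0 ≤ j) (h1 : j * (3 * j + 1) ≤ 2 * (n : ℤ))
    (h2 : 2 * (n : ℤ) < (j + 1) * (3 * j + 2)) : KK 1 n = Icc (-j) j := by
  ext k
  rw [mem_KK1, mem_Icc]
  have h3 := two_mul_natCast_pentagonal k
  constructor
  · intro h
    have h4 : (pentagonal k : ℤ) ≤ n := by exact_mod_cast h
    have h5 : k * (3 * k - 1) ≤ 2 * n := by linarith
    constructor
    · by_contra hc
      have hc' : k + j + 1 ≤ 0 := by omega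
      nlinarith
    · by_contra hc
      have hc' : j + 1 ≤ k := by omega
      nlinarith
  · rintro ⟨h4, h5⟩
    have h6 : k * (3 * k - 1) ≤ j * (3 * j + 1) := by
      rcases le_total 0 k with hk | hk
      · nlinarith
      · nlinarith
    have h7 : (pentagonal k : ℤ) ≤ n := by linarith
    exact_mod_cast h7

lemma exists_zero (L : ℕ) (c : Fin (L + 1) → ZMod 2) (hB : SB1) (n : ℕ) (j : ℤ) (hj : 0 ≤ j)
    (hn : 1 ≤ n) (h1 : j * (3 * j + 1) ≤ 2 * (n : ℤ))
    (h2 : 2 * ((n : ℤ) + L) < (j + 1) * (3 * j + 2)) :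
    ∃ k : ℤ, pentagonal k ≤ n ∧ sv L c (n - pentagonal k) = 0 := by
  have hL : (0 : ℤ) ≤ L := Int.natCast_nonneg L
  have hk : KK 1 n = Icc (-j) j := KK1_eq n j hj h1 (by linarith)
  have hk2 : KK 1 (n + L) = Icc (-j) j :=
    KK1_eq (n + L) j hj (by push_cast; linarith) (by push_cast; linarith)
  have hs := hB L c n hn (by
    rintro k ⟨ha, hb⟩
    have hmem : k ∈ KK 1 (n + L) := (mem_KK1 _ _).2 hb
    rw [hk2, ← hk, mem_KK1] at hmem
    omega)
  by_contra hc
  push Not at hc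
  have h3 : ∀ k ∈ KK 1 n, sv L c (n - pentagonal k) = 1 := by
    intro k hk'
    have h4 := hc k ((mem_KK1 _ _).1 hk')
    revert h4
    generalize sv L c (n - pentagonal k) = z
    revert z
    decide
  rw [sum_congr rfl h3, hk] at hs
  simp only [sum_const, Int.card_Icc, nsmul_eq_mul, mul_one] at hs
  rw [ZMod.natCast_eq_zero_iff] at hs
  omega

lemma sq_le_pent (k : ℤ) : k * k ≤ (pentagonal k : ℤ) := by
  have h := two_mul_natCast_pentagonal k
  rcases le_or_gt k 0 with hk | hk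
  · nlinarith
  · have : 1 ≤ k := hk
    nlinarith

lemma sum_lower (L N : ℕ) : N * (N - 1) ≤ ∑ j ∈ range N, (2 * j - L) + L * N := by
  induction N with
  | zero => simp
  | succ n ih =>
    rw [sum_range_succ]
    have h1 : (n + 1) * (n + 1 - 1) = n * (n - 1) + 2 * n := by
      rcases n with _ | m
      · simp
      · simp only [Nat.add_sub_cancel]
        ring
    rw [h1]
    have h2 : 2 * n ≤ (2 * n - L) + L := by omega
    have h3 : L * (n + 1) = L * n + L := by ring
    omega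

lemma count (hB : SB1) (L : ℕ) (c : Fin (L + 1) → ZMod 2) (x N : ℕ) (hN : 3 * N ^ 2 ≤ 2 * x) :
    ∑ j ∈ range N, (2 * j - L) ≤
      ((range (x + 1)).filter (fun n => sv L c n = 0)).card * (2 * Nat.sqrt x + 1) := by
  classical
  let T : Finset (Σ _ : ℕ, ℕ) := (range N).sigma (fun j => range (2 * j - L))
  have hT : T.card = ∑ j ∈ range N, (2 * j - L) := by simp [T, card_sigma]
  let nn : (Σ _ : ℕ, ℕ) → ℕ := fun p => pentagonal (-(p.1 : ℤ)) + 1 + p.2
  have hnn : ∀ p : (Σ _ : ℕ, ℕ), 2 * (nn p : ℤ) = p.1 * (3 * p.1 + 1) + 2 + 2 * p.2 := by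
    intro p
    have h := two_mul_natCast_pentagonal_neg (p.1 : ℤ)
    simp only [nn]
    push_cast
    linarith
  have hmemT : ∀ p ∈ T, p.1 < N ∧ p.2 + L < 2 * p.1 := by
    intro p hp
    simp only [T, mem_sigma, mem_range] at hp
    exact ⟨hp.1, by omega⟩
  have hex : ∀ p ∈ T, ∃ k : ℤ, pentagonal k ≤ nn p ∧ sv L c (nn p - pentagonal k) = 0 := by
    intro p hp
    obtain ⟨h1, h2⟩ := hmemT p hp
    have h3 := hnn p
    have h2' : (p.2 : ℤ) + L < 2 * p.1 := by exact_mod_cast h2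
    have hp2 : (0 : ℤ) ≤ p.2 := Int.natCast_nonneg _
    refine exists_zero L c hB (nn p) (p.1 : ℤ) (Int.natCast_nonneg _) (by simp only [nn]; omega) ?_ ?_
    · rw [h3]; linarith
    · nlinarith
  choose! g hg1 hg2 using hex
  have hnx : ∀ p ∈ T, nn p ≤ x := by
    intro p hp
    obtain ⟨h1, h2⟩ := hmemT p hp
    have h3 := hnn p
    have h2' : (p.2 : ℤ) + L < 2 * p.1 := by exact_mod_cast h2
    have h1' : (p.1 : ℤ) + 1 ≤ N := by exact_mod_cast h1
    have hN' : 3 * (N : ℤ) ^ 2 ≤ 2 * x := by exact_mod_cast hN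
    have hL : (0 : ℤ) ≤ L := Int.natCast_nonneg _
    have hp1 : (0 : ℤ) ≤ p.1 := Int.natCast_nonneg _
    have : (nn p : ℤ) ≤ x := by nlinarith
    exact_mod_cast this
  have hcard : T.card ≤ (((range (x + 1)).filter (fun n => sv L c n = 0)) ×ˢ
      Icc (-(Nat.sqrt x : ℤ)) (Nat.sqrt x)).card := by
    apply card_le_card_of_injOn (fun p => (nn p - pentagonal (g p), g p))
    · intro p hp
      have hp' : p ∈ T := hp
      simp only [coe_product, Set.mem_prod, mem_coe, mem_filter, mem_range, mem_Icc]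
      have h1 := hg1 p hp'
      have h2 := hnx p hp'
      refine ⟨⟨by omega, hg2 p hp'⟩, ?_⟩
      have h3 := sq_le_pent (g p)
      have h4 : (g p).natAbs * (g p).natAbs ≤ x := by
        have : (((g p).natAbs * (g p).natAbs : ℕ) : ℤ) ≤ x := by
          push_cast
          rw [← abs_mul, abs_mul_self]
          exact h3.trans (by exact_mod_cast h1.trans h2)
        exact_mod_cast this
      have h5 : (g p).natAbs ≤ Nat.sqrt x := Nat.le_sqrt.2 h4
      omega
    · intro p hp q hq hpq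
      have hp' : p ∈ T := hp
      have hq' : q ∈ T := hq
      simp only [Prod.mk.injEq] at hpq
      obtain ⟨ha, hb⟩ := hpq
      have h1 := hg1 p hp'
      have h2 := hg1 q hq'
      rw [hb] at ha h1
      have h3 : nn p = nn q := by omega
      obtain ⟨h4, h5⟩ := hmemT p hp'
      obtain ⟨h6, h7⟩ := hmemT q hq'
      have h8 := hnn p
      have h9 := hnn q
      have h3' : (nn p : ℤ) = nn q := by exact_mod_cast h3
      have h5' : (p.2 : ℤ) + L < 2 * p.1 := by exact_mod_cast h5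
      have h7' : (q.2 : ℤ) + L < 2 * q.1 := by exact_mod_cast h7
      have hL : (0 : ℤ) ≤ L := Int.natCast_nonneg _
      have e1 : (0 : ℤ) ≤ p.1 := Int.natCast_nonneg _
      have e2 : (0 : ℤ) ≤ q.1 := Int.natCast_nonneg _
      have e3 : (0 : ℤ) ≤ p.2 := Int.natCast_nonneg _
      have e4 : (0 : ℤ) ≤ q.2 := Int.natCast_nonneg _
      have h10 : (p.1 : ℤ) = q.1 := by
        rcases lt_trichotomy (p.1 : ℤ) q.1 with h | h | h
        · have : (p.1 : ℤ) + 1 ≤ q.1 := h
          nlinarith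
        · exact h
        · have : (q.1 : ℤ) + 1 ≤ p.1 := h
          nlinarith
      have h11 : p.1 = q.1 := by exact_mod_cast h10
      have h12 : p.2 = q.2 := by
        have : (p.2 : ℤ) = q.2 := by
          rw [h10] at h8
          linarith
        exact_mod_cast this
      obtain ⟨p1, p2⟩ := p
      obtain ⟨q1, q2⟩ := q
      simp only at h11 h12
      subst h11
      subst h12
      rfl
  rw [card_product, Int.card_Icc] at hcard
  rw [← hT]
  refine hcard.trans (le_of_eq ?_)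
  congr 1
  omega

/-- **CT-D0** -/
theorem sd0 (hB : SB1) : SD0 := by
  intro L c
  refine ⟨(20 * (L + 4)) ^ 2, fun x hx => ?_⟩
  set Zc : ℕ := ((range (x + 1)).filter (fun n => sv L c n = 0)).card with hZ
  set R : ℕ := Nat.sqrt x with hR
  have hR1 : 20 * (L + 4) ≤ R := Nat.le_sqrt'.2 hx
  obtain ⟨r, s, hs, hrs⟩ : ∃ r s : ℕ, s < 5 ∧ R = 5 * r + s :=
    ⟨R / 5, R % 5, Nat.mod_lt _ (by norm_num), (Nat.div_add_mod R 5).symm⟩
  have hr : 4 * (L + 4) ≤ r := by omega
  have hRx : R ^ 2 ≤ x := Nat.sqrt_le' x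
  have hcount := count hB L c x (4 * r) (by
    have h1 : (5 * r) ^ 2 ≤ R ^ 2 := Nat.pow_le_pow_left (by omega) 2
    nlinarith)
  rw [← hZ, ← hR] at hcount
  have hlow := sum_lower L (4 * r)
  have hZr : r ≤ Zc := by
    by_contra hc
    have hc' : Zc + 1 ≤ r := by omega
    have h1 : 4 * r * (4 * r - 1) ≤ Zc * (2 * R + 1) + L * (4 * r) :=
      hlow.trans (Nat.add_le_add_right hcount _)
    have h2 : 1 ≤ 4 * r := by omega
    have h3 : (4 * (r : ℤ)) * (4 * r - 1) ≤ Zc * (2 * R + 1) + L * (4 * r) := by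
      have := h1
      zify [h2] at this
      exact this
    have h4 : (R : ℤ) = 5 * r + s := by exact_mod_cast hrs
    have h5 : (Zc : ℤ) + 1 ≤ r := by exact_mod_cast hc'
    have h6 : (s : ℤ) ≤ 4 := by exact_mod_cast (by omega : s ≤ 4)
    have h7 : 4 * ((L : ℤ) + 4) ≤ r := by exact_mod_cast hr
    have h8 : (0 : ℤ) ≤ Zc := Int.natCast_nonneg _
    have h9 : (0 : ℤ) ≤ L := Int.natCast_nonneg _
    have h10 : (Zc : ℤ) * (2 * R + 1) ≤ r * (10 * r + 9) := by
      rw [h4]
      have : (2 * (5 * (r : ℤ) + s) + 1) ≤ 10 * r + 9 := by linarith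
      have h0 : (0 : ℤ) ≤ 2 * (5 * (r : ℤ) + s) + 1 := by positivity
      calc (Zc : ℤ) * (2 * (5 * (r : ℤ) + s) + 1) ≤ r * (2 * (5 * (r : ℤ) + s) + 1) :=
            mul_le_mul_of_nonneg_right (by linarith) h0
        _ ≤ r * (10 * r + 9) := mul_le_mul_of_nonneg_left this (by positivity)
    nlinarith
  have hsq : Real.sqrt x ≤ R + 1 := by
    rw [Real.sqrt_le_left (by positivity)]
    have := Nat.lt_succ_sqrt' x
    have h1 : x ≤ (R + 1) ^ 2 := le_of_lt this
    exact_mod_cast h1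
  have h1 : (R : ℝ) ≤ 5 * r + 4 := by exact_mod_cast (by omega : R ≤ 5 * r + 4)
  have h2 : (16 : ℝ) ≤ r := by exact_mod_cast (by omega : 16 ≤ r)
  have h3 : (r : ℝ) ≤ Zc := by exact_mod_cast hZr
  linarith

end Pool.Agent.TH227.CT
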